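import Pool.Agent.Helper72_Valence.Key

open Metric Set Filter Topology

namespace Pool.Agent.Helper72_Valence

/-- Rotated Koebe-type function. -/
noncomputable def kb (ζ z : ℂ) : ℂ := z / (1 - ζ * z) ^ 2

theorem one_sub_mul_ne {ζ z : ℂ} (h : ‖ζ * z‖ < 1) : 1 - ζ * z ≠ 0 := by
  intro h2
  have : ζ * z = 1 := (sub_eq_zero.mp h2).symm
  rw [this] at h
  simp at h

theorem norm_mul_lt {ζ z : ℂ} (hζ : ‖ζ‖ ≤ 1) (hz : ‖z‖ < 1) : ‖ζ * z‖ < 1 := by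
  rw [norm_mul]
  nlinarith [norm_nonneg z, norm_nonneg ζ]

theorem hasDerivAt_kb {ζ z : ℂ} (h : 1 - ζ * z ≠ 0) :
    HasDerivAt (kb ζ) ((1 + ζ * z) / (1 - ζ * z) ^ 3) z := by
  have h1 : HasDerivAt (fun z : ℂ => 1 - ζ * z) (-ζ) z := by
    simpa using ((hasDerivAt_id z).const_mul ζ).const_sub 1
  have h2 := h1.pow 2
  have h3 := (hasDerivAt_id z).div h2 (pow_ne_zero 2 h)
  refine h3.congr_deriv ?_
  simp only [id, Pi.pow_apply]
  field_simp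
  ring

theorem kb_diffOn {ζ : ℂ} (hζ : ‖ζ‖ ≤ 1) : DifferentiableOn ℂ (kb ζ) (ball 0 1) := by
  intro z hz
  have hz : ‖z‖ < 1 := by simpa using hz
  exact (hasDerivAt_kb (one_sub_mul_ne (norm_mul_lt hζ hz))).differentiableAt.differentiableWithinAt

theorem kb_zero (ζ : ℂ) : kb ζ 0 = 0 := by simp [kb]

theorem kb_deriv_zero (ζ : ℂ) : HasDerivAt (kb ζ) 1 0 := by
  have := hasDerivAt_kb (ζ := ζ) (z := 0) (by simp)
  simpa using this

theorem kb_sub {ζ z w : ℂ} (hz : 1 - ζ * z ≠ 0) (hw : 1 - ζ * w ≠ 0) :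
    kb ζ z - kb ζ w = (z - w) * (1 - (ζ * z) * (ζ * w)) / ((1 - ζ * z) ^ 2 * (1 - ζ * w) ^ 2) := by
  unfold kb
  rw [div_sub_div _ _ (pow_ne_zero 2 hz) (pow_ne_zero 2 hw)]
  congr 1
  ring

theorem kb_injOn {ζ : ℂ} (hζ : ‖ζ‖ ≤ 1) : InjOn (kb ζ) (ball 0 1) := by
  intro z hz w hw hzw
  have hz : ‖z‖ < 1 := by simpa using hz
  have hw : ‖w‖ < 1 := by simpa using hw
  have hz1 := norm_mul_lt hζ hz
  have hw1 := norm_mul_lt hζ hw
  have hz2 := one_sub_mul_ne hz1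
  have hw2 := one_sub_mul_ne hw1
  have h := kb_sub hz2 hw2
  rw [hzw, sub_self, eq_comm, div_eq_zero_iff] at h
  rcases h with h | h
  · rcases mul_eq_zero.mp h with h | h
    · exact sub_eq_zero.mp h
    · exfalso
      refine one_sub_mul_ne (ζ := ζ * z) (z := ζ * w) ?_ h
      rw [norm_mul]
      nlinarith [norm_nonneg (ζ * z), norm_nonneg (ζ * w)]
  · exfalso
    exact mul_ne_zero (pow_ne_zero 2 hz2) (pow_ne_zero 2 hw2) h

theorem kb_lower {ζ z w : ℂ} (hζ : ‖ζ‖ ≤ 1) (hz : ‖z‖ < 1) (hw : ‖w‖ < 1) :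
    (1 - ‖ζ‖ ^ 2) / 16 * ‖z - w‖ ≤ ‖kb ζ z - kb ζ w‖ := by
  have hz1 := norm_mul_lt hζ hz
  have hw1 := norm_mul_lt hζ hw
  have hz2 := one_sub_mul_ne hz1
  have hw2 := one_sub_mul_ne hw1
  have hz3 : ‖1 - ζ * z‖ ≤ 2 := by
    calc ‖1 - ζ * z‖ ≤ ‖(1 : ℂ)‖ + ‖ζ * z‖ := norm_sub_le _ _
      _ ≤ 2 := by rw [norm_one]; linarith
  have hw3 : ‖1 - ζ * w‖ ≤ 2 := by
    calc ‖1 - ζ * w‖ ≤ ‖(1 : ℂ)‖ + ‖ζ * w‖ := norm_sub_le _ _
      _ ≤ 2 := by rw [norm_one]; linarith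
  have hz4 : 0 < ‖1 - ζ * z‖ := norm_pos_iff.mpr hz2
  have hw4 : 0 < ‖1 - ζ * w‖ := norm_pos_iff.mpr hw2
  have hnum : 1 - ‖ζ‖ ^ 2 ≤ ‖1 - (ζ * z) * (ζ * w)‖ := by
    have h1 : ‖(1 : ℂ)‖ ≤ ‖1 - (ζ * z) * (ζ * w)‖ + ‖(ζ * z) * (ζ * w)‖ := by
      calc ‖(1 : ℂ)‖ = ‖(1 - (ζ * z) * (ζ * w)) + (ζ * z) * (ζ * w)‖ := by ring_nf
        _ ≤ _ := norm_add_le _ _
    have h2 : ‖(ζ * z) * (ζ * w)‖ ≤ ‖ζ‖ ^ 2 := by
      rw [norm_mul, norm_mul, norm_mul]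
      have h3 : ‖ζ‖ * ‖z‖ ≤ ‖ζ‖ * 1 := by gcongr
      have h4 : ‖ζ‖ * ‖w‖ ≤ ‖ζ‖ * 1 := by gcongr
      calc ‖ζ‖ * ‖z‖ * (‖ζ‖ * ‖w‖) ≤ (‖ζ‖ * 1) * (‖ζ‖ * 1) := by gcongr
        _ = ‖ζ‖ ^ 2 := by ring
    rw [norm_one] at h1
    linarith
  rw [kb_sub hz2 hw2, norm_div, norm_mul, norm_mul, norm_pow, norm_pow]
  rw [le_div_iff₀ (by positivity)]
  have hden : ‖1 - ζ * z‖ ^ 2 * ‖1 - ζ * w‖ ^ 2 ≤ 16 := by
    calc ‖1 - ζ * z‖ ^ 2 * ‖1 - ζ * w‖ ^ 2 ≤ 2 ^ 2 * 2 ^ 2 := by gcongr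
      _ = 16 := by norm_num
  have hζ2 : 0 ≤ 1 - ‖ζ‖ ^ 2 := by nlinarith [norm_nonneg ζ]
  calc (1 - ‖ζ‖ ^ 2) / 16 * ‖z - w‖ * (‖1 - ζ * z‖ ^ 2 * ‖1 - ζ * w‖ ^ 2)
      ≤ (1 - ‖ζ‖ ^ 2) / 16 * ‖z - w‖ * 16 := by gcongr
    _ = ‖z - w‖ * (1 - ‖ζ‖ ^ 2) := by ring
    _ ≤ ‖z - w‖ * ‖1 - (ζ * z) * (ζ * w)‖ := by gcongr

/-- Choice of the radius. -/
theorem exists_radius {μ : ℝ} (hμ : 0 < μ) :
    ∃ r : ℝ, -1 < r ∧ r < 1 ∧ (1 + r) / (1 - r) ^ 3 = μ := by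
  have hcont : ContinuousOn (fun s : ℝ => μ * s ^ 3 + s - 2) (Icc 0 2) := by fun_prop
  have h := intermediate_value_Icc (by norm_num : (0 : ℝ) ≤ 2) hcont
  have h0 : (0 : ℝ) ∈ Icc ((fun s : ℝ => μ * s ^ 3 + s - 2) 0) ((fun s : ℝ => μ * s ^ 3 + s - 2) 2) := by
    constructor
    · norm_num
    · norm_num
      linarith
  obtain ⟨s, ⟨hs0, hs2⟩, hs⟩ := h h0
  simp only at hs
  have hs0' : 0 < s := by
    rcases hs0.lt_or_eq with h | h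
    · exact h
    · rw [← h] at hs; norm_num at hs
  have hs2' : s < 2 := by
    rcases hs2.lt_or_eq with h | h
    · exact h
    · rw [h] at hs; norm_num at hs; linarith
  refine ⟨1 - s, by linarith, by linarith, ?_⟩
  have h3 : (1 - (1 - s)) = s := by ring
  rw [h3, div_eq_iff (by positivity)]
  linarith

theorem arith (α : ℝ) (hα0 : 0 < α) (hα1 : α < 1) :
    ∃ f g : ℂ → ℂ,
      (DifferentiableOn ℂ f (ball (0 : ℂ) 1) ∧ InjOn f (ball (0 : ℂ) 1) ∧ f 0 = 0 ∧ deriv f 0 = 1) ∧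
      (DifferentiableOn ℂ g (ball (0 : ℂ) 1) ∧ InjOn g (ball (0 : ℂ) 1) ∧ g 0 = 0 ∧ deriv g 0 = 1) ∧
      ∃ w : ℂ, {z : ℂ | z ∈ ball (0 : ℂ) 1 ∧
        (α : ℂ) * f z + (1 - (α : ℂ)) * g z = w}.Infinite := by
  obtain ⟨r, hr1, hr2, hr⟩ := exists_radius (μ := (1 - α) / (2 * α))
    (div_pos (by linarith) (by linarith))
  have hrn : ‖(r : ℂ)‖ < 1 := by
    rw [Complex.norm_real, Real.norm_eq_abs, abs_lt]
    exact ⟨hr1, hr2⟩
  set b : ℝ := (1 - ‖(r : ℂ)‖ ^ 2) / 16 with hb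
  have hbpos : 0 < b := by
    have : 0 < 1 - ‖(r : ℂ)‖ ^ 2 := by nlinarith [norm_nonneg (r : ℂ)]
    positivity
  set ε : ℝ := b / (2 * lip) with hε
  have hlip := lip_pos
  have hεpos : 0 < ε := by positivity
  have hI : ‖Complex.I‖ ≤ 1 := by simp
  refine ⟨fun z => kb r z + (ε : ℂ) * pert z, kb Complex.I, ⟨?_, ?_, ?_, ?_⟩,
    ⟨kb_diffOn hI, kb_injOn hI, kb_zero _, (kb_deriv_zero _).deriv⟩, ?_⟩
  · exact (kb_diffOn hrn.le).add (pert_diffOn.const_mul _)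
  · intro z hz w hw hzw
    have hz : ‖z‖ < 1 := by simpa using hz
    have hw : ‖w‖ < 1 := by simpa using hw
    simp only at hzw
    have h1 : kb r z - kb r w = (ε : ℂ) * (pert w - pert z) := by linear_combination hzw
    have h2 := kb_lower hrn.le hz hw
    rw [← hb, h1, norm_mul, Complex.norm_real, Real.norm_eq_abs, abs_of_pos hεpos] at h2
    have h3 := pert_lipschitz hw hz
    have h4 : b * ‖z - w‖ ≤ ε * (lip * ‖w - z‖) := h2.trans (by gcongr)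
    have h5 : ε * (lip * ‖w - z‖) = b / 2 * ‖z - w‖ := by
      rw [hε, norm_sub_rev w z]
      field_simp
    rw [h5] at h4
    have h6 : ‖z - w‖ ≤ 0 := by
      by_contra hcon
      push Not at hcon
      nlinarith
    have h7 := norm_le_zero_iff.mp h6
    exact sub_eq_zero.mp h7
  · simp [kb_zero, pert_zero]
  · have := (kb_deriv_zero (r : ℂ)).add (hasDerivAt_pert_zero.const_mul (ε : ℂ))
    have h2 : deriv (fun z => kb r z + (ε : ℂ) * pert z) 0 = 1 + (ε : ℂ) * 0 := this.deriv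
    rw [h2]
    ring
  · set F0 : ℂ → ℂ := fun z => (α : ℂ) * kb r z + (1 - (α : ℂ)) * kb Complex.I z with hF0
    refine ⟨F0 1, ?_⟩
    have hr1c : (1 : ℂ) - (r : ℂ) * 1 ≠ 0 := by
      apply one_sub_mul_ne
      simpa using hrn
    have hI1c : (1 : ℂ) - Complex.I * 1 ≠ 0 := by
      intro h
      have := congrArg Complex.re h
      simp at this
    have hder : HasDerivAt F0 0 1 := by
      have h1 := ((hasDerivAt_kb hr1c).const_mul (α : ℂ)).add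
        ((hasDerivAt_kb hI1c).const_mul (1 - (α : ℂ)))
      refine h1.congr_deriv ?_
      have hrC : (1 + (r : ℂ) * 1) / (1 - (r : ℂ) * 1) ^ 3 = ((1 - α) / (2 * α) : ℝ) := by
        rw [← hr]; push_cast; ring
      have hIC : (1 + Complex.I * 1) / (1 - Complex.I * 1) ^ 3 = -(1 / 2) := by
        rw [div_eq_iff (pow_ne_zero 3 hI1c)]
        have hI3 : Complex.I ^ 3 = -Complex.I := by
          rw [pow_succ, Complex.I_sq]; ring
        ring_nf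
        rw [Complex.I_sq, hI3]
        ring
      rw [hrC, hIC]
      have hαne : (α : ℂ) ≠ 0 := by exact_mod_cast hα0.ne'
      push_cast
      field_simp
      ring
    have hkey := key (F0 := F0) (c := (α : ℂ) * ε)
      (mul_ne_zero (by exact_mod_cast hα0.ne') (by exact_mod_cast hεpos.ne')) hder one_pos
      (by
        intro z hz _
        have hA := (hasDerivAt_kb (one_sub_mul_ne (norm_mul_lt hrn.le hz))).differentiableAt
        have hB := (hasDerivAt_kb (one_sub_mul_ne (norm_mul_lt hI hz))).differentiableAt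
        exact (hA.const_mul _).add (hB.const_mul _))
    apply infinite_of_accumulates
    · intro ρ hρ
      obtain ⟨z, hz1, hz2, hz3⟩ := hkey ρ hρ
      refine ⟨z, ⟨by simpa using hz1, ?_⟩, hz2⟩
      rw [← hz3, hF0]
      ring
    · intro h
      have := h.1
      simp at this

end Pool.Agent.Helper72_Valence
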