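import Mathlib

open Metric Set Filter Topology

namespace Pool.Agent.Helper72_Valence

/-- The perturbation `z^2 (1-z) sin (log (1-z))`. -/
noncomputable def pert (z : ℂ) : ℂ :=
  z ^ 2 * ((1 - z) * Complex.sin (Complex.log (1 - z)))

theorem one_sub_mem_slitPlane {z : ℂ} (hz : ‖z‖ < 1) : (1 - z) ∈ Complex.slitPlane := by
  left
  have h : |z.re| ≤ ‖z‖ := Complex.abs_re_le_norm z
  have h2 : z.re ≤ |z.re| := le_abs_self _
  simp only [Complex.sub_re, Complex.one_re]
  linarith

theorem norm_sin_le (u : ℂ) : ‖Complex.sin u‖ ≤ Real.exp |u.im| := by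
  rw [Complex.sin]
  have h1 : ‖Complex.exp (-u * Complex.I)‖ ≤ Real.exp |u.im| := by
    rw [Complex.norm_exp]
    apply Real.exp_le_exp.mpr
    simp
    exact le_abs_self _
  have h2 : ‖Complex.exp (u * Complex.I)‖ ≤ Real.exp |u.im| := by
    rw [Complex.norm_exp]
    apply Real.exp_le_exp.mpr
    simp
    exact neg_le_abs _
  calc ‖(Complex.exp (-u * Complex.I) - Complex.exp (u * Complex.I)) * Complex.I / 2‖
      = ‖Complex.exp (-u * Complex.I) - Complex.exp (u * Complex.I)‖ / 2 := by
        simp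
    _ ≤ (‖Complex.exp (-u * Complex.I)‖ + ‖Complex.exp (u * Complex.I)‖) / 2 := by
        gcongr
        exact norm_sub_le _ _
    _ ≤ Real.exp |u.im| := by linarith

theorem norm_cos_le (u : ℂ) : ‖Complex.cos u‖ ≤ Real.exp |u.im| := by
  rw [Complex.cos]
  have h1 : ‖Complex.exp (-u * Complex.I)‖ ≤ Real.exp |u.im| := by
    rw [Complex.norm_exp]
    apply Real.exp_le_exp.mpr
    simp
    exact le_abs_self _
  have h2 : ‖Complex.exp (u * Complex.I)‖ ≤ Real.exp |u.im| := by
    rw [Complex.norm_exp]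
    apply Real.exp_le_exp.mpr
    simp
    exact neg_le_abs _
  calc ‖(Complex.exp (u * Complex.I) + Complex.exp (-u * Complex.I)) / 2‖
      = ‖Complex.exp (u * Complex.I) + Complex.exp (-u * Complex.I)‖ / 2 := by
        simp
    _ ≤ (‖Complex.exp (u * Complex.I)‖ + ‖Complex.exp (-u * Complex.I)‖) / 2 := by
        gcongr
        exact norm_add_le _ _
    _ ≤ Real.exp |u.im| := by linarith

theorem hasDerivAt_pert {z : ℂ} (hz : ‖z‖ < 1) :
    HasDerivAt pert (2 * z * ((1 - z) * Complex.sin (Complex.log (1 - z)))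
      + z ^ 2 * (-Complex.sin (Complex.log (1 - z)) - Complex.cos (Complex.log (1 - z)))) z := by
  have hs := one_sub_mem_slitPlane hz
  have hne : (1 - z) ≠ 0 := Complex.slitPlane_ne_zero hs
  have h1 : HasDerivAt (fun z : ℂ => 1 - z) (-1) z := by
    simpa using (hasDerivAt_id z).const_sub 1
  have hlog : HasDerivAt (fun z : ℂ => Complex.log (1 - z)) (-1 / (1 - z)) z := by
    simpa using h1.clog hs
  have hsin : HasDerivAt (fun z : ℂ => Complex.sin (Complex.log (1 - z)))
      (Complex.cos (Complex.log (1 - z)) * (-1 / (1 - z))) z :=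
    hlog.csin
  have hprod := h1.mul hsin
  have hsq : HasDerivAt (fun z : ℂ => z ^ 2) (2 * z) z := by
    simpa using hasDerivAt_pow 2 z
  have := hsq.mul hprod
  refine this.congr_deriv ?_
  simp only [Pi.mul_apply]
  field_simp
  ring

theorem pert_diffOn : DifferentiableOn ℂ pert (ball 0 1) := fun z hz =>
  (hasDerivAt_pert (by simpa using hz)).differentiableAt.differentiableWithinAt

theorem abs_im_log_le (u : ℂ) : |(Complex.log u).im| ≤ Real.pi := by
  rw [Complex.log_im]
  exact Complex.abs_arg_le_pi u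

/-- The Lipschitz constant. -/
noncomputable def lip : ℝ := 6 * Real.exp Real.pi

theorem lip_pos : 0 < lip := by unfold lip; positivity

theorem pert_lipschitz {z w : ℂ} (hz : ‖z‖ < 1) (hw : ‖w‖ < 1) :
    ‖pert z - pert w‖ ≤ lip * ‖z - w‖ := by
  have hconv : Convex ℝ (ball (0 : ℂ) 1) := convex_ball 0 1
  refine hconv.norm_image_sub_le_of_norm_deriv_le (𝕜 := ℂ) (f := pert) ?_ ?_
    (by simpa using hw) (by simpa using hz)
  · intro x hx
    exact (hasDerivAt_pert (by simpa using hx)).differentiableAt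
  · intro x hx
    have hx : ‖x‖ < 1 := by simpa using hx
    rw [(hasDerivAt_pert hx).deriv]
    have hS : ‖Complex.sin (Complex.log (1 - x))‖ ≤ Real.exp Real.pi :=
      (norm_sin_le _).trans (Real.exp_le_exp.mpr (abs_im_log_le _))
    have hC : ‖Complex.cos (Complex.log (1 - x))‖ ≤ Real.exp Real.pi :=
      (norm_cos_le _).trans (Real.exp_le_exp.mpr (abs_im_log_le _))
    have h1x : ‖1 - x‖ ≤ 2 := by
      calc ‖1 - x‖ ≤ ‖(1 : ℂ)‖ + ‖x‖ := norm_sub_le _ _
        _ ≤ 2 := by rw [norm_one]; linarith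
    set S := Complex.sin (Complex.log (1 - x))
    set C := Complex.cos (Complex.log (1 - x))
    set E := Real.exp Real.pi
    have hE : 0 < E := Real.exp_pos _
    calc ‖2 * x * ((1 - x) * S) + x ^ 2 * (-S - C)‖
        ≤ ‖2 * x * ((1 - x) * S)‖ + ‖x ^ 2 * (-S - C)‖ := norm_add_le _ _
      _ = 2 * ‖x‖ * (‖1 - x‖ * ‖S‖) + ‖x‖ ^ 2 * ‖-S - C‖ := by
          simp [norm_mul, norm_pow]
      _ ≤ 2 * 1 * (2 * E) + 1 ^ 2 * (E + E) := by
          have h3 : ‖-S - C‖ ≤ E + E := by
            calc ‖-S - C‖ ≤ ‖-S‖ + ‖C‖ := norm_sub_le _ _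
              _ = ‖S‖ + ‖C‖ := by rw [norm_neg]
              _ ≤ E + E := add_le_add hS hC
          gcongr
      _ = lip := by unfold lip; ring

theorem pert_zero : pert 0 = 0 := by simp [pert]

theorem norm_pert_le {z : ℂ} (hz : ‖z‖ < 1) : ‖pert z‖ ≤ lip := by
  have h := pert_lipschitz hz (w := 0) (by simp)
  rw [pert_zero, sub_zero, sub_zero] at h
  have hl := lip_pos
  nlinarith [norm_nonneg z]

theorem hasDerivAt_pert_zero : HasDerivAt pert 0 0 := by
  have := hasDerivAt_pert (z := 0) (by simp)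
  simpa using this

/-- Lower bound on the comparison circle. -/
theorem circle_lower : ∃ c : ℝ, 0 < c ∧ ∀ ω : ℂ, ‖ω - 1‖ = 1 / 2 →
    c ≤ ‖ω * Complex.sin (Complex.log ω)‖ := by
  have hcomp : IsCompact (sphere (1 : ℂ) (1 / 2)) := isCompact_sphere _ _
  have hne : (sphere (1 : ℂ) (1 / 2)).Nonempty := (NormedSpace.sphere_nonempty).mpr (by norm_num)
  have hslit : ∀ ω ∈ sphere (1 : ℂ) (1 / 2), ω ∈ Complex.slitPlane := by
    intro ω hω
    left
    have h1 : ‖ω - 1‖ = 1 / 2 := by simpa [dist_eq_norm] using hω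
    have h2 : |(ω - 1).re| ≤ ‖ω - 1‖ := Complex.abs_re_le_norm _
    have h3 := neg_abs_le (ω - 1).re
    simp only [Complex.sub_re, Complex.one_re] at h2 h3
    linarith
  have hcont : ContinuousOn (fun ω : ℂ => ‖ω * Complex.sin (Complex.log ω)‖)
      (sphere (1 : ℂ) (1 / 2)) := by
    apply ContinuousOn.norm
    apply ContinuousOn.mul continuousOn_id
    apply Complex.continuous_sin.comp_continuousOn
    exact fun ω hω => (Complex.differentiableAt_log (hslit ω hω)).continuousAt.continuousWithinAt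
  obtain ⟨ω0, hω0, hmin⟩ := hcomp.exists_isMinOn hne hcont
  refine ⟨‖ω0 * Complex.sin (Complex.log ω0)‖, ?_, ?_⟩
  · rw [norm_pos_iff]
    have hs0 := hslit ω0 hω0
    have hne0 : ω0 ≠ 0 := Complex.slitPlane_ne_zero hs0
    refine mul_ne_zero hne0 ?_
    intro hsin
    rw [Complex.sin_eq_zero_iff] at hsin
    obtain ⟨k, hk⟩ := hsin
    have hω0' : ω0 = ((Real.exp (k * Real.pi) : ℝ) : ℂ) := by
      rw [← Complex.exp_log hne0, hk]
      push_cast
      rfl
    have hn : ‖ω0 - 1‖ = 1 / 2 := by simpa [dist_eq_norm] using hω0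
    rw [hω0'] at hn
    have hn2 : |Real.exp (k * Real.pi) - 1| = 1 / 2 := by
      rw [← hn, ← Complex.ofReal_one, ← Complex.ofReal_sub, Complex.norm_real, Real.norm_eq_abs]
    have hpi : (3 : ℝ) < Real.pi := Real.pi_gt_three
    rcases lt_trichotomy k 0 with hk0 | hk0 | hk0
    · have hk1 : (k : ℝ) ≤ -1 := by exact_mod_cast Int.le_sub_one_of_lt hk0
      have h1 : Real.exp (k * Real.pi) ≤ Real.exp (-1) := by
        apply Real.exp_le_exp.mpr
        nlinarith
      have h2 : Real.exp (-1) < 1 / 2 := by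
        have := Real.exp_one_gt_d9
        rw [Real.exp_neg, inv_lt_comm₀ (Real.exp_pos _) (by norm_num)]
        norm_num
        linarith
      rw [abs_sub_comm, abs_of_pos (by linarith)] at hn2
      linarith
    · subst hk0
      simp at hn2
    · have hk1 : (1 : ℝ) ≤ k := by exact_mod_cast hk0
      have h1 : Real.exp 1 ≤ Real.exp (k * Real.pi) := by
        apply Real.exp_le_exp.mpr
        nlinarith
      have := Real.exp_one_gt_d9
      rw [abs_of_pos (by linarith)] at hn2
      linarith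
  · intro ω hω
    exact hmin (by simpa [dist_eq_norm] using hω)

end Pool.Agent.Helper72_Valence
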