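import Pool.Agent.Helper72_Valence.Arith

open Metric Set Filter Topology

namespace Pool.Agent.Helper72_Valence

noncomputable section

/-- numeric parameters -/
def zt : ℂ := (4 - 2 * Complex.I) / 5
def et : ℂ := (72 - 16 * Complex.I) / 85
def dt : ℂ := (1 - 4 * Complex.I) / 17

theorem normSq_zt : ‖zt‖ ^ 2 = 4 / 5 := by
  rw [← Complex.normSq_eq_norm_sq, zt, Complex.normSq_apply]
  simp
  norm_num

theorem normSq_et : ‖et‖ ^ 2 = 64 / 85 := by
  rw [← Complex.normSq_eq_norm_sq, et, Complex.normSq_apply]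
  simp
  norm_num

theorem normSq_dt : ‖dt‖ ^ 2 = 1 / 17 := by
  rw [← Complex.normSq_eq_norm_sq, dt, Complex.normSq_apply]
  simp
  norm_num

theorem norm_zt_le : ‖zt‖ ≤ 9 / 10 := by
  have := normSq_zt
  nlinarith [norm_nonneg zt]

theorem norm_et_le : ‖et‖ ≤ 9 / 10 := by
  have := normSq_et
  nlinarith [norm_nonneg et]

theorem norm_dt_ge : 1 / 5 ≤ ‖dt‖ := by
  have := normSq_dt
  nlinarith [norm_nonneg dt]

/-- the base function -/
def f0 (z : ℂ) : ℂ := z * (1 - et * z) / (1 - zt * z) ^ 2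

theorem ne_zt {z : ℂ} (hz : ‖z‖ ≤ 1) : 1 - zt * z ≠ 0 := by
  apply one_sub_mul_ne
  rw [norm_mul]
  nlinarith [norm_zt_le, norm_nonneg zt, norm_nonneg z]

theorem ne_et {z : ℂ} (hz : ‖z‖ ≤ 1) : 1 - et * z ≠ 0 := by
  apply one_sub_mul_ne
  rw [norm_mul]
  nlinarith [norm_et_le, norm_nonneg et, norm_nonneg z]

theorem et_eq : et = (1 - dt) * zt := by
  unfold et dt zt
  ring_nf
  rw [Complex.I_sq]
  ring

theorem dt_mul : dt * (1 + 4 * Complex.I) = 1 := by
  unfold dt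
  ring_nf
  rw [Complex.I_sq]
  ring

theorem f0_diffAt {z : ℂ} (hz : ‖z‖ ≤ 1) : DifferentiableAt ℂ f0 z := by
  unfold f0
  have h := pow_ne_zero 2 (ne_zt hz)
  fun_prop (disch := assumption)

theorem f0_sub {z w : ℂ} (hz : 1 - zt * z ≠ 0) (hw : 1 - zt * w ≠ 0) :
    f0 z - f0 w = (z - w) / ((1 - zt * z) * (1 - zt * w)) *
      (dt * ((1 + 4 * Complex.I) + zt * z / (1 - zt * z) + zt * w / (1 - zt * w))) := by
  have h1 : dt * ((1 + 4 * Complex.I) + zt * z / (1 - zt * z) + zt * w / (1 - zt * w))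
      = 1 + dt * (zt * z / (1 - zt * z) + zt * w / (1 - zt * w)) := by
    linear_combination dt_mul
  rw [h1]
  unfold f0
  rw [et_eq]
  have h2 : zt * z / (1 - zt * z) + zt * w / (1 - zt * w) =
      (zt * z * (1 - zt * w) + zt * w * (1 - zt * z)) / ((1 - zt * z) * (1 - zt * w)) := by
    rw [div_add_div _ _ hz hw]
    ring
  rw [h2, div_sub_div _ _ (pow_ne_zero 2 hz) (pow_ne_zero 2 hw)]
  have hzw : (1 - zt * z) * (1 - zt * w) ≠ 0 := mul_ne_zero hz hw
  have h3 : 1 + dt * ((zt * z * (1 - zt * w) + zt * w * (1 - zt * z)) / ((1 - zt * z) * (1 - zt * w)))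
      = ((1 - zt * z) * (1 - zt * w) + dt * (zt * z * (1 - zt * w) + zt * w * (1 - zt * z))) /
        ((1 - zt * z) * (1 - zt * w)) := by
    rw [eq_div_iff hzw, add_mul, one_mul, mul_assoc, div_mul_cancel₀ _ hzw]
  rw [h3, div_mul_div_comm, div_eq_div_iff
    (mul_ne_zero (pow_ne_zero 2 hz) (pow_ne_zero 2 hw)) (mul_ne_zero hzw hzw)]
  ring

theorem re_half {x : ℂ} (hx : ‖x‖ ^ 2 ≤ 4 / 5) (hx1 : 1 - x ≠ 0) :
    -(1 / 2) + 1 / 40 ≤ (x / (1 - x)).re := by
  have hxn : ‖x‖ ≤ 1 := by nlinarith [norm_nonneg x]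
  have hns : Complex.normSq (1 - x) ≤ 4 := by
    rw [Complex.normSq_eq_norm_sq]
    have : ‖1 - x‖ ≤ 2 := by
      calc ‖1 - x‖ ≤ ‖(1 : ℂ)‖ + ‖x‖ := norm_sub_le _ _
        _ ≤ 2 := by rw [norm_one]; linarith
    nlinarith [norm_nonneg (1 - x)]
  have hpos : 0 < Complex.normSq (1 - x) := Complex.normSq_pos.mpr hx1
  have hx2 : x.re ^ 2 + x.im ^ 2 ≤ 4 / 5 := by
    rw [← Complex.normSq_eq_norm_sq, Complex.normSq_apply] at hx
    nlinarith
  rw [Complex.div_re]
  have hnsf : Complex.normSq (1 - x) = (1 - x.re) ^ 2 + x.im ^ 2 := by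
    rw [Complex.normSq_apply]; simp; ring
  have h2 : x.re * (1 - x).re / Complex.normSq (1 - x) + x.im * (1 - x).im / Complex.normSq (1 - x)
      = (x.re - x.re ^ 2 - x.im ^ 2) / Complex.normSq (1 - x) := by
    rw [← add_div]
    congr 1
    simp
    ring
  rw [h2, le_div_iff₀ hpos]
  rw [hnsf] at hns ⊢
  nlinarith

theorem f0_lower {z w : ℂ} (hz : ‖z‖ < 1) (hw : ‖w‖ < 1) :
    1 / 400 * ‖z - w‖ ≤ ‖f0 z - f0 w‖ := by
  have hz2 := ne_zt hz.le
  have hw2 := ne_zt hw.le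
  have hbd : ∀ u : ℂ, ‖u‖ < 1 → ‖1 - zt * u‖ ≤ 2 := by
    intro u hu
    calc ‖1 - zt * u‖ ≤ ‖(1 : ℂ)‖ + ‖zt * u‖ := norm_sub_le _ _
      _ ≤ 2 := by
        rw [norm_one, norm_mul]
        nlinarith [norm_zt_le, norm_nonneg zt, norm_nonneg u]
  have hsq : ∀ u : ℂ, ‖u‖ < 1 → ‖zt * u‖ ^ 2 ≤ 4 / 5 := by
    intro u hu
    rw [norm_mul, mul_pow, normSq_zt]
    nlinarith [norm_nonneg u]
  have hz3 := hbd z hz
  have hw3 := hbd w hw
  have hz4 : 0 < ‖1 - zt * z‖ := norm_pos_iff.mpr hz2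
  have hw4 : 0 < ‖1 - zt * w‖ := norm_pos_iff.mpr hw2
  rw [f0_sub hz2 hw2, norm_mul, norm_div, norm_mul, norm_mul]
  have hre : 1 / 20 ≤ ‖(1 + 4 * Complex.I) + zt * z / (1 - zt * z) + zt * w / (1 - zt * w)‖ := by
    refine le_trans ?_ (Complex.re_le_norm _)
    have h1 := re_half (hsq z hz) hz2
    have h2 := re_half (hsq w hw) hw2
    simp only [Complex.add_re, Complex.one_re, Complex.mul_re, Complex.I_re, Complex.I_im] at *
    norm_num at *
    linarith
  have hmul : 1 / 100 ≤ ‖dt‖ * ‖(1 + 4 * Complex.I) + zt * z / (1 - zt * z) + zt * w / (1 - zt * w)‖ := by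
    calc (1 / 100 : ℝ) = (1 / 5) * (1 / 20) := by norm_num
      _ ≤ _ := by
        have := norm_dt_ge
        gcongr
  have h5 : ‖z - w‖ / 4 ≤ ‖z - w‖ / (‖1 - zt * z‖ * ‖1 - zt * w‖) := by
    apply div_le_div_of_nonneg_left (norm_nonneg _) (by positivity)
    calc ‖1 - zt * z‖ * ‖1 - zt * w‖ ≤ 2 * 2 := by gcongr
      _ = 4 := by norm_num
  calc 1 / 400 * ‖z - w‖ = ‖z - w‖ / 4 * (1 / 100) := by ring
    _ ≤ _ := by gcongr

theorem f0_bound {z : ℂ} (hz : ‖z‖ < 1) : ‖f0 z‖ ≤ 200 := by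
  unfold f0
  have h1 : 1 / 10 ≤ ‖1 - zt * z‖ := by
    have h2 : ‖(1 : ℂ)‖ ≤ ‖1 - zt * z‖ + ‖zt * z‖ := by
      calc ‖(1 : ℂ)‖ = ‖(1 - zt * z) + zt * z‖ := by ring_nf
        _ ≤ _ := norm_add_le _ _
    rw [norm_one, norm_mul] at h2
    nlinarith [norm_zt_le, norm_nonneg zt, norm_nonneg z]
  have h3 : ‖1 - et * z‖ ≤ 2 := by
    calc ‖1 - et * z‖ ≤ ‖(1 : ℂ)‖ + ‖et * z‖ := norm_sub_le _ _
      _ ≤ 2 := by
        rw [norm_one, norm_mul]
        nlinarith [norm_et_le, norm_nonneg et, norm_nonneg z]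
  rw [norm_div, norm_mul, norm_pow, div_le_iff₀ (by positivity)]
  calc ‖z‖ * ‖1 - et * z‖ ≤ 1 * 2 := by gcongr
    _ = 200 * (1 / 10) ^ 2 := by norm_num
    _ ≤ 200 * ‖1 - zt * z‖ ^ 2 := by gcongr

theorem one_sub_mul_slit {ζ z : ℂ} (h : ‖ζ * z‖ < 1) : 1 - ζ * z ∈ Complex.slitPlane :=
  one_sub_mem_slitPlane h

theorem hasDerivAt_log_one_sub {ζ z : ℂ} (h : 1 - ζ * z ∈ Complex.slitPlane) :
    HasDerivAt (fun z : ℂ => Complex.log (1 - ζ * z)) (-ζ / (1 - ζ * z)) z := by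
  have h1 : HasDerivAt (fun z : ℂ => 1 - ζ * z) (-ζ) z := by
    simpa using ((hasDerivAt_id z).const_mul ζ).const_sub 1
  exact h1.clog h

/-- Logarithm of the base function. -/
def L0 (z : ℂ) : ℂ := Complex.log (1 - et * z) - 2 * Complex.log (1 - zt * z)

theorem norm_et_mul_lt {z : ℂ} (hz : ‖z‖ ≤ 1) : ‖et * z‖ < 1 := by
  rw [norm_mul]
  nlinarith [norm_et_le, norm_nonneg et, norm_nonneg z]

theorem norm_zt_mul_lt {z : ℂ} (hz : ‖z‖ ≤ 1) : ‖zt * z‖ < 1 := by
  rw [norm_mul]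
  nlinarith [norm_zt_le, norm_nonneg zt, norm_nonneg z]

theorem hasDerivAt_L0 {z : ℂ} (hz : ‖z‖ ≤ 1) :
    HasDerivAt L0 (-et / (1 - et * z) - 2 * (-zt / (1 - zt * z))) z :=
  (hasDerivAt_log_one_sub (one_sub_mul_slit (norm_et_mul_lt hz))).sub
    ((hasDerivAt_log_one_sub (one_sub_mul_slit (norm_zt_mul_lt hz))).const_mul 2)

theorem exp_L0 {z : ℂ} (hz : ‖z‖ ≤ 1) :
    Complex.exp (L0 z) = (1 - et * z) / (1 - zt * z) ^ 2 := by
  unfold L0
  rw [Complex.exp_sub, Complex.exp_log (ne_et hz), two_mul, Complex.exp_add,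
    Complex.exp_log (ne_zt hz)]
  ring

theorem deriv_one_L0 :
    -et / (1 - et * 1) - 2 * (-zt / (1 - zt * 1)) = -(3 + 4 * Complex.I) / 5 - 1 := by
  have h1 := ne_et (z := 1) (by simp)
  have h2 := ne_zt (z := 1) (by simp)
  have h3 : -et / (1 - et * 1) = -(8 / 5) + 16 / 5 * Complex.I := by
    rw [div_eq_iff h1]
    unfold et
    ring_nf
    rw [Complex.I_sq]
    ring
  have h4 : -zt / (1 - zt * 1) = 2 * Complex.I := by
    rw [div_eq_iff h2]
    unfold zt
    ring_nf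
    rw [Complex.I_sq]
    ring
  rw [h3, h4]
  ring

theorem geom (α : ℝ) (hα0 : 0 < α) (hα1 : α < 1) :
    ∃ f g Lf Lg : ℂ → ℂ,
      (DifferentiableOn ℂ f (ball (0 : ℂ) 1) ∧ InjOn f (ball (0 : ℂ) 1) ∧ f 0 = 0 ∧ deriv f 0 = 1) ∧
      (DifferentiableOn ℂ g (ball (0 : ℂ) 1) ∧ InjOn g (ball (0 : ℂ) 1) ∧ g 0 = 0 ∧ deriv g 0 = 1) ∧
      (DifferentiableOn ℂ Lf (ball (0 : ℂ) 1) ∧ Lf 0 = 0 ∧
        ∀ z ∈ ball (0 : ℂ) 1, z ≠ 0 → Complex.exp (Lf z) = f z / z) ∧
      (DifferentiableOn ℂ Lg (ball (0 : ℂ) 1) ∧ Lg 0 = 0 ∧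
        ∀ z ∈ ball (0 : ℂ) 1, z ≠ 0 → Complex.exp (Lg z) = g z / z) ∧
      ∃ w : ℂ, {z : ℂ | z ∈ ball (0 : ℂ) 1 ∧
        z * Complex.exp ((α : ℂ) * Lf z + (1 - (α : ℂ)) * Lg z) = w}.Infinite := by
  have hlip := lip_pos
  -- parameters
  set β : ℝ := 1 - α with hβ
  have hβ0 : 0 < β := by rw [hβ]; linarith
  set ε : ℝ := 1 / (320000 * lip) with hε
  have hεpos : 0 < ε := by positivity
  set b : ℂ := ((α / β : ℝ) : ℂ) * ((3 + 4 * Complex.I) / 5) with hb
  have hbre : 0 < b.re := by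
    rw [hb, Complex.re_ofReal_mul]
    have : ((3 + 4 * Complex.I) / 5 : ℂ).re = 3 / 5 := by
      simp
    rw [this]
    positivity
  have hb1 : b + 1 ≠ 0 := by
    intro h
    have := congrArg Complex.re h
    simp at this
    linarith
  set ξ : ℂ := (b - 1) / (b + 1) with hξ
  have hξn : ‖ξ‖ < 1 := by
    rw [hξ, norm_div, div_lt_one (norm_pos_iff.mpr hb1)]
    have h1 : ‖b - 1‖ ^ 2 < ‖b + 1‖ ^ 2 := by
      rw [← Complex.normSq_eq_norm_sq, ← Complex.normSq_eq_norm_sq, Complex.normSq_apply,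
        Complex.normSq_apply]
      simp
      nlinarith
    exact lt_of_pow_lt_pow_left₀ 2 (norm_nonneg _) h1
  have hξle := hξn.le
  have hξmul : ∀ z : ℂ, ‖z‖ ≤ 1 → ‖ξ * z‖ < 1 := by
    intro z hz
    rw [norm_mul]
    nlinarith [norm_nonneg ξ, norm_nonneg z]
  refine ⟨fun z => f0 z * Complex.exp ((ε : ℂ) * pert z), kb ξ,
    fun z => L0 z + (ε : ℂ) * pert z, fun z => -2 * Complex.log (1 - ξ * z),
    ⟨?_, ?_, ?_, ?_⟩,
    ⟨kb_diffOn hξle, kb_injOn hξle, kb_zero _, (kb_deriv_zero _).deriv⟩,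
    ⟨?_, ?_, ?_⟩, ⟨?_, ?_, ?_⟩, ?_⟩
  · intro z hz
    have hz1 : ‖z‖ < 1 := by simpa using hz
    exact ((f0_diffAt hz1.le).mul
      (((hasDerivAt_pert hz1).differentiableAt.const_mul _).cexp)).differentiableWithinAt
  · intro z hz w hw hzw
    have hz : ‖z‖ < 1 := by simpa using hz
    have hw : ‖w‖ < 1 := by simpa using hw
    simp only at hzw
    have hrew : f0 z - f0 w = f0 w * (Complex.exp ((ε : ℂ) * (pert w - pert z)) - 1) := by
      have h1 : Complex.exp ((ε : ℂ) * (pert w - pert z)) =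
          Complex.exp ((ε : ℂ) * pert w) / Complex.exp ((ε : ℂ) * pert z) := by
        rw [← Complex.exp_sub]; ring_nf
      rw [h1, mul_sub, mul_one]
      have hne := Complex.exp_ne_zero ((ε : ℂ) * pert z)
      rw [mul_div_assoc', ← hzw, mul_div_assoc, div_self hne, mul_one]
    have hx : ‖(ε : ℂ) * (pert w - pert z)‖ ≤ ε * lip * ‖z - w‖ := by
      rw [norm_mul, Complex.norm_real, Real.norm_eq_abs, abs_of_pos hεpos, mul_assoc,
        norm_sub_rev z w]
      gcongr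
      exact pert_lipschitz hw hz
    have hεl : ε * lip = 1 / 320000 := by rw [hε]; field_simp
    rw [hεl] at hx
    have hzwn : ‖z - w‖ ≤ 2 := by
      calc ‖z - w‖ ≤ ‖z‖ + ‖w‖ := norm_sub_le _ _
        _ ≤ 2 := by linarith
    have hx1 : ‖(ε : ℂ) * (pert w - pert z)‖ ≤ 1 := by linarith
    have hexp := Complex.norm_exp_sub_one_le hx1
    have hlow := f0_lower hz hw
    rw [hrew, norm_mul] at hlow
    have hup : ‖f0 w‖ * ‖Complex.exp ((ε : ℂ) * (pert w - pert z)) - 1‖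
        ≤ 200 * (2 * (1 / 320000 * ‖z - w‖)) := by
      have h1 := f0_bound hw
      gcongr
      exact hexp.trans (by gcongr)
    have h6 : ‖z - w‖ ≤ 0 := by linarith [norm_nonneg (z - w)]
    exact sub_eq_zero.mp (norm_le_zero_iff.mp h6)
  · simp [f0]
  · have hf0d : HasDerivAt f0 1 0 := by
      have hd := (f0_diffAt (z := 0) (by simp)).hasDerivAt
      have : deriv f0 0 = 1 := by
        have h1 : HasDerivAt (fun z : ℂ => z * (1 - et * z)) 1 0 := by
          have := (hasDerivAt_id (0 : ℂ)).mul (((hasDerivAt_id (0 : ℂ)).const_mul et).const_sub 1)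
          refine this.congr_deriv ?_
          simp
        have h2 : HasDerivAt (fun z : ℂ => (1 - zt * z) ^ 2) (2 * (1 - zt * 0) ^ 1 * (-zt)) 0 := by
          have h3 : HasDerivAt (fun z : ℂ => 1 - zt * z) (-zt) 0 := by
            simpa using ((hasDerivAt_id (0 : ℂ)).const_mul zt).const_sub 1
          exact h3.pow 2
        have h4 := h1.div h2 (by simp)
        have h5 : HasDerivAt f0 1 0 := by
          refine h4.congr_deriv ?_
          simp
        exact h5.deriv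
      rwa [this] at hd
    have he : HasDerivAt (fun z => Complex.exp ((ε : ℂ) * pert z)) 0 0 := by
      have := (hasDerivAt_pert_zero.const_mul (ε : ℂ)).cexp
      refine this.congr_deriv ?_
      simp
    have hm := hf0d.mul he
    have h2 : deriv (fun z => f0 z * Complex.exp ((ε : ℂ) * pert z)) 0 =
      1 * Complex.exp ((ε : ℂ) * pert 0) + f0 0 * 0 := hm.deriv
    rw [h2, pert_zero]
    simp
  · intro z hz
    have hz1 : ‖z‖ < 1 := by simpa using hz
    exact ((hasDerivAt_L0 hz1.le).differentiableAt.add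
      ((hasDerivAt_pert hz1).differentiableAt.const_mul _)).differentiableWithinAt
  · simp [L0, pert_zero]
  · intro z hz hz0
    have hz1 : ‖z‖ < 1 := by simpa using hz
    simp only
    rw [Complex.exp_add, exp_L0 hz1.le]
    unfold f0
    field_simp
  · intro z hz
    have hz1 : ‖z‖ < 1 := by simpa using hz
    exact ((hasDerivAt_log_one_sub (one_sub_mul_slit
      (hξmul z hz1.le))).differentiableAt.const_mul _).differentiableWithinAt
  · simp
  · intro z hz hz0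
    have hz1 : ‖z‖ < 1 := by simpa using hz
    have hne := one_sub_mul_ne (hξmul z hz1.le)
    simp only [kb]
    have h1 : -2 * Complex.log (1 - ξ * z) = -(Complex.log (1 - ξ * z) + Complex.log (1 - ξ * z)) := by
      ring
    rw [h1, Complex.exp_neg, Complex.exp_add, Complex.exp_log hne]
    field_simp
  · -- main part
    set Λ : ℂ → ℂ := fun z => Complex.log z + (α : ℂ) * L0 z
      + (1 - (α : ℂ)) * (-2 * Complex.log (1 - ξ * z)) with hΛ
    have hαne : (α : ℂ) ≠ 0 := by exact_mod_cast hα0.ne'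
    have hβne : (β : ℂ) ≠ 0 := by exact_mod_cast hβ0.ne'
    have hslit1 : 1 - ξ * 1 ∈ Complex.slitPlane := one_sub_mul_slit (hξmul 1 (by simp))
    have hne1 : 1 - ξ * 1 ≠ 0 := Complex.slitPlane_ne_zero hslit1
    have hder : HasDerivAt Λ 0 1 := by
      have h1 : HasDerivAt Complex.log (1 : ℂ)⁻¹ 1 := Complex.hasDerivAt_log (by simp)
      have h2 := (hasDerivAt_L0 (z := 1) (by simp)).const_mul (α : ℂ)
      have h3 := ((hasDerivAt_log_one_sub hslit1).const_mul (-2 : ℂ)).const_mul (1 - (α : ℂ))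
      have h4 := (h1.add h2).add h3
      refine h4.congr_deriv ?_
      rw [deriv_one_L0]
      have h5 : -2 * (-ξ / (1 - ξ * 1)) = b - 1 := by
        have h6 : 1 - ξ * 1 = 2 / (b + 1) := by
          rw [hξ]; field_simp; ring
        rw [h6, hξ]
        field_simp
      rw [h5]
      have h7 : (1 - (α : ℂ)) * b = (α : ℂ) * ((3 + 4 * Complex.I) / 5) := by
        have h8 : (1 - (α : ℂ)) = (β : ℂ) := by rw [hβ]; push_cast; ring
        rw [h8, hb]
        push_cast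
        field_simp
      rw [inv_one]
      linear_combination h7
    have hkey := key (F0 := Λ) (c := (α : ℂ) * ε)
      (mul_ne_zero hαne (by exact_mod_cast hεpos.ne')) hder one_pos
      (by
        intro z hz hz1
        have hzslit : z ∈ Complex.slitPlane := by
          left
          have h1 : |(z - 1).re| ≤ ‖z - 1‖ := Complex.abs_re_le_norm _
          have h2 := neg_abs_le (z - 1).re
          simp only [Complex.sub_re, Complex.one_re] at h1 h2
          linarith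
        have h1 : DifferentiableAt ℂ Complex.log z := (Complex.hasDerivAt_log hzslit).differentiableAt
        have h2 := (hasDerivAt_L0 hz.le).differentiableAt.const_mul (α : ℂ)
        have h3 := ((hasDerivAt_log_one_sub (one_sub_mul_slit
          (hξmul z hz.le))).differentiableAt.const_mul (-2 : ℂ)).const_mul (1 - (α : ℂ))
        exact (h1.add h2).add h3)
    refine ⟨Complex.exp (Λ 1), ?_⟩
    apply infinite_of_accumulates
    · intro ρ hρ
      obtain ⟨z, hz1, hz2, hz3⟩ := hkey (min ρ 1) (lt_min hρ one_pos)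
      refine ⟨z, ⟨by simpa using hz1, ?_⟩, lt_of_lt_of_le hz2 (min_le_left _ _)⟩
      have hz0 : z ≠ 0 := by
        intro h
        rw [h] at hz2
        have := lt_of_lt_of_le hz2 (min_le_right _ _)
        simp at this
      rw [← hz3, hΛ]
      simp only
      rw [show Complex.log z + (α : ℂ) * L0 z + (1 - (α : ℂ)) * (-2 * Complex.log (1 - ξ * z))
          + (α : ℂ) * ε * pert z = Complex.log z + ((α : ℂ) * (L0 z + (ε : ℂ) * pert z)
          + (1 - (α : ℂ)) * (-2 * Complex.log (1 - ξ * z))) by ring,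
        Complex.exp_add (Complex.log z), Complex.exp_log hz0]
    · intro h
      have := h.1
      simp at this

end

end Pool.Agent.Helper72_Valence
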