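import Pool.Agent.Helper72_Valence.Core

open Metric Set Filter Topology

namespace Pool.Agent.Helper72_Valence

/-- Key lemma: if `F0` is complex differentiable at `1` with derivative `0` and differentiable at all
points of the disk near `1`, then `F0 + c * pert` takes the value `F0 1` at points of the unit disk
arbitrarily close to `1`. -/
theorem key {F0 : ℂ → ℂ} {c : ℂ} (hc : c ≠ 0) (h0 : HasDerivAt F0 0 1) {R : ℝ} (hR : 0 < R)
    (hd : ∀ z : ℂ, ‖z‖ < 1 → ‖z - 1‖ < R → DifferentiableAt ℂ F0 z) :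
    ∀ ρ : ℝ, 0 < ρ → ∃ z : ℂ, ‖z‖ < 1 ∧ ‖z - 1‖ < ρ ∧ F0 z + c * pert z = F0 1 := by
  intro ρ hρ
  obtain ⟨c0, hc0, hcirc⟩ := circle_lower
  set κ : ℝ := ‖c‖ * c0 / 4 with hκ
  have hcn : 0 < ‖c‖ := norm_pos_iff.mpr hc
  have hκpos : 0 < κ := by positivity
  set δ : ℝ := κ / 5 with hδ
  have hδpos : 0 < δ := by positivity
  -- little-o
  have hlo := h0.isLittleO
  have hev : ∀ᶠ z in 𝓝 (1 : ℂ), ‖F0 z - F0 1‖ ≤ δ * ‖z - 1‖ := by
    have := hlo.def hδpos
    filter_upwards [this] with z hz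
    simpa using hz
  obtain ⟨η, hη, hηb⟩ := Metric.eventually_nhds_iff.mp hev
  -- choose n
  set m : ℝ := min (min η ρ) (min R (1 / 2)) with hm
  have hmpos : 0 < m := by
    rw [hm]
    exact lt_min (lt_min hη hρ) (lt_min hR (by norm_num))
  have hmη : m ≤ η := (min_le_left _ _).trans (min_le_left _ _)
  have hmρ : m ≤ ρ := (min_le_left _ _).trans (min_le_right _ _)
  have hmR : m ≤ R := (min_le_right _ _).trans (min_le_left _ _)
  have hm2 : m ≤ 1 / 2 := (min_le_right _ _).trans (min_le_right _ _)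
  obtain ⟨n, hn⟩ : ∃ n : ℕ, (3 / 2) * Real.exp (-(n * Real.pi)) < m := by
    have htend : Tendsto (fun n : ℕ => (3 / 2 : ℝ) * Real.exp (-(n * Real.pi))) atTop (𝓝 ((3/2) * 0)) := by
      apply Tendsto.const_mul
      apply Real.tendsto_exp_neg_atTop_nhds_zero.comp
      exact tendsto_natCast_atTop_atTop.atTop_mul_const Real.pi_pos
    rw [mul_zero] at htend
    exact ((tendsto_order.1 htend).2 m hmpos).exists
  set a : ℝ := Real.exp (-(n * Real.pi)) with ha
  have hapos : 0 < a := Real.exp_pos _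
  have hane : (a : ℂ) ≠ 0 := by exact_mod_cast hapos.ne'
  set z0 : ℂ := 1 - (a : ℂ) with hz0
  have hz01 : ‖z0 - 1‖ = a := by
    rw [hz0]; simp [abs_of_pos hapos]
  have hballnorm : ∀ z ∈ closedBall z0 (a / 2), ‖z - 1‖ ≤ 3 / 2 * a := by
    intro z hz
    have hz' : ‖z - z0‖ ≤ a / 2 := by simpa [dist_eq_norm] using hz
    calc ‖z - 1‖ = ‖(z - z0) + (z0 - 1)‖ := by ring_nf
      _ ≤ ‖z - z0‖ + ‖z0 - 1‖ := norm_add_le _ _
      _ ≤ 3 / 2 * a := by rw [hz01]; linarith
  have hballlt : ∀ z ∈ closedBall z0 (a / 2), ‖z‖ < 1 := by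
    intro z hz
    have hz' : ‖z - z0‖ ≤ a / 2 := by simpa [dist_eq_norm] using hz
    have hz0n : ‖z0‖ = 1 - a := by
      have : z0 = ((1 - a : ℝ) : ℂ) := by rw [hz0]; push_cast; ring
      rw [this, Complex.norm_real, Real.norm_eq_abs, abs_of_nonneg]
      linarith
    calc ‖z‖ = ‖(z - z0) + z0‖ := by ring_nf
      _ ≤ ‖z - z0‖ + ‖z0‖ := norm_add_le _ _
      _ < 1 := by rw [hz0n]; linarith
  have hballge : ∀ z ∈ closedBall z0 (a / 2), 1 / 2 ≤ ‖z‖ := by
    intro z hz
    have h1 := hballnorm z hz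
    have h2 : ‖(1 : ℂ)‖ ≤ ‖z‖ + ‖1 - z‖ := by
      calc ‖(1 : ℂ)‖ = ‖z + (1 - z)‖ := by ring_nf
        _ ≤ ‖z‖ + ‖1 - z‖ := norm_add_le _ _
    rw [norm_one, norm_sub_rev] at h2
    linarith
  -- value at center
  have hlog0 : Complex.log (1 - z0) = -((n : ℂ) * Real.pi) := by
    have : (1 : ℂ) - z0 = (a : ℂ) := by rw [hz0]; ring
    rw [this, ha, ← Complex.ofReal_log (Real.exp_pos _).le, Real.log_exp]
    push_cast
    ring
  have hp0 : pert z0 = 0 := by
    unfold pert
    rw [hlog0, Complex.sin_neg, Complex.sin_nat_mul_pi]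
    simp
  -- lower bound on sphere
  have hsph : ∀ z ∈ sphere z0 (a / 2), (1 / 4) * c0 * a ≤ ‖pert z‖ := by
    intro z hz
    have hzc : z ∈ closedBall z0 (a / 2) := sphere_subset_closedBall hz
    have hz' : ‖z - z0‖ = a / 2 := by simpa [dist_eq_norm] using hz
    set ω : ℂ := (1 - z) / a with hω
    have h1z : (1 : ℂ) - z = (a : ℂ) * ω := by rw [hω]; field_simp
    have hω1 : ‖ω - 1‖ = 1 / 2 := by
      have : ω - 1 = -(z - z0) / a := by
        rw [hω, hz0]; field_simp; ring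
      rw [this, norm_div, norm_neg, hz', Complex.norm_real, Real.norm_eq_abs, abs_of_pos hapos]
      field_simp
    have hωne : ω ≠ 0 := by
      intro h
      rw [h] at hω1
      norm_num at hω1
    have hlog : Complex.log (1 - z) = Complex.log ω - (n : ℂ) * Real.pi := by
      rw [h1z, Complex.log_ofReal_mul hapos hωne, ha, Real.log_exp]
      push_cast
      ring
    have hsin : ‖Complex.sin (Complex.log (1 - z))‖ = ‖Complex.sin (Complex.log ω)‖ := by
      rw [hlog, Complex.sin_antiperiodic.sub_nat_mul_eq n]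
      simp
    have hb := hcirc ω hω1
    unfold pert
    rw [norm_mul, norm_mul, norm_pow, hsin, h1z, norm_mul, Complex.norm_real, Real.norm_eq_abs,
      abs_of_pos hapos]
    rw [norm_mul] at hb
    have hzz := hballge z hzc
    have hzz2 : (1 / 4 : ℝ) ≤ ‖z‖ ^ 2 := by nlinarith
    calc (1 / 4) * c0 * a = (1 / 4) * (a * c0) := by ring
      _ ≤ ‖z‖ ^ 2 * (a * (‖ω‖ * ‖Complex.sin (Complex.log ω)‖)) := by gcongr
      _ = ‖z‖ ^ 2 * (a * ‖ω‖ * ‖Complex.sin (Complex.log ω)‖) := by ring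
  have hF0b : ∀ z ∈ closedBall z0 (a / 2), ‖F0 z - F0 1‖ ≤ δ * ((3 / 2) * a) := by
    intro z hz
    have h1 := hballnorm z hz
    have h2 : ‖F0 z - F0 1‖ ≤ δ * ‖z - 1‖ := by
      apply hηb
      rw [dist_eq_norm]
      linarith
    calc ‖F0 z - F0 1‖ ≤ δ * ‖z - 1‖ := h2
      _ ≤ δ * ((3 / 2) * a) := by gcongr
  have hcen : ‖F0 z0 - F0 1‖ ≤ δ * a := by
    have h2 : ‖F0 z0 - F0 1‖ ≤ δ * ‖z0 - 1‖ := by
      apply hηb
      rw [dist_eq_norm, hz01]
      linarith
    rwa [hz01] at h2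
  -- suppose no zero
  by_contra hno
  push Not at hno
  have hnz : ∀ z ∈ closedBall z0 (a / 2), F0 z + c * pert z - F0 1 ≠ 0 := by
    intro z hz hzero
    have h1 := hballnorm z hz
    exact hno z (hballlt z hz) (by linarith) (sub_eq_zero.mp hzero)
  have hdiffF : ∀ z ∈ closedBall z0 (a / 2),
      DifferentiableAt ℂ (fun z => F0 z + c * pert z - F0 1) z := by
    intro z hz
    have h1 := hballnorm z hz
    have hA : DifferentiableAt ℂ F0 z := hd z (hballlt z hz) (by linarith)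
    have hB : DifferentiableAt ℂ pert z := (hasDerivAt_pert (hballlt z hz)).differentiableAt
    fun_prop
  have hdiffinv : DifferentiableOn ℂ (fun z => (F0 z + c * pert z - F0 1)⁻¹)
      (closedBall z0 (a / 2)) := by
    intro z hz
    exact ((hdiffF z hz).inv (hnz z hz)).differentiableWithinAt
  have hdcl : DiffContOnCl ℂ (fun z => (F0 z + c * pert z - F0 1)⁻¹) (ball z0 (a / 2)) := by
    apply DifferentiableOn.diffContOnCl
    rw [closure_ball z0 (by positivity : a / 2 ≠ 0)]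
    exact hdiffinv
  have hkey : ‖(F0 z0 + c * pert z0 - F0 1)⁻¹‖ ≤ (κ * a - δ * ((3 / 2) * a))⁻¹ := by
    apply Complex.norm_le_of_forall_mem_frontier_norm_le (U := ball z0 (a / 2)) isBounded_ball hdcl
    · intro z hz
      rw [frontier_ball z0 (by positivity : a / 2 ≠ 0)] at hz
      rw [norm_inv]
      apply inv_anti₀
      · have : κ * a - δ * (3 / 2 * a) = (7 / 2) * δ * a := by rw [hδ]; ring
        rw [this]; positivity
      · have h1 := hsph z hz
        have h2 := hF0b z (sphere_subset_closedBall hz)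
        have h3 : ‖c * pert z‖ ≤ ‖F0 z + c * pert z - F0 1‖ + ‖F0 z - F0 1‖ := by
          calc ‖c * pert z‖ = ‖(F0 z + c * pert z - F0 1) - (F0 z - F0 1)‖ := by ring_nf
            _ ≤ _ := norm_sub_le _ _
        rw [norm_mul] at h3
        have h4 : κ * a ≤ ‖c‖ * ‖pert z‖ := by
          calc κ * a = ‖c‖ * ((1 / 4) * c0 * a) := by rw [hκ]; ring
            _ ≤ _ := by gcongr
        linarith
    · apply subset_closure
      exact mem_ball_self (by positivity)
  rw [hp0, mul_zero, add_zero, norm_inv] at hkey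
  have hpos1 : 0 < ‖F0 z0 - F0 1‖ := by
    rw [norm_pos_iff]
    have := hnz z0 (mem_closedBall_self (by positivity))
    rwa [hp0, mul_zero, add_zero] at this
  have hle : κ * a - δ * ((3 / 2) * a) ≤ ‖F0 z0 - F0 1‖ := by
    rwa [inv_le_inv₀ hpos1] at hkey
    have : κ * a - δ * (3 / 2 * a) = (7 / 2) * δ * a := by rw [hδ]; ring
    rw [this]; positivity
  have h7 : κ * a - δ * (3 / 2 * a) = (7 / 2) * δ * a := by rw [hδ]; ring
  have hda : 0 < δ * a := by positivity
  rw [h7] at hle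
  nlinarith

/-- A set of points of the open unit disk accumulating at `1` is infinite. -/
theorem infinite_of_accumulates {A : Set ℂ}
    (h : ∀ ρ : ℝ, 0 < ρ → ∃ z ∈ A, ‖z - 1‖ < ρ) (h1 : (1 : ℂ) ∉ A) : A.Infinite := by
  intro hfin
  have hcl : IsClosed A := hfin.isClosed
  apply h1
  rw [← hcl.closure_eq, Metric.mem_closure_iff]
  intro ρ hρ
  obtain ⟨z, hz, hzd⟩ := h ρ hρ
  exact ⟨z, hz, by rw [dist_eq_norm, norm_sub_rev]; exact hzd⟩

end Pool.Agent.Helper72_Valence
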